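import Mathlib
import Pool.Agent.R47.OddCube

/-!
# Bounds for the odd independence number of even-dimensional hypercubes
-/

set_option autoImplicit false

open Pool.Agent.R47.OddCube

namespace Pool.Agent.Results.MP_5d7181_co.OddIndepBounds

/-- For every even `d ≥ 4`,
`(1 - 2^(-⌊log₂ d⌋)) 2^(d-1) ≤ α_od(Q_d) ≤ (1 - 1/d) 2^(d-1)`; the two bounds agree when `d` is a
power of two. -/
theorem result (d : ℕ) (hd : Even d) (h4 : 4 ≤ d) :
    (1 - 1 / (2 : ℝ) ^ Nat.log 2 d) * 2 ^ (d - 1) ≤ (alphaOd (cube d) : ℝ) ∧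
    (alphaOd (cube d) : ℝ) ≤ (1 - 1 / (d : ℝ)) * 2 ^ (d - 1) ∧
    ∀ r, d = 2 ^ r → (alphaOd (cube d) : ℝ) = (1 - 1 / (d : ℝ)) * 2 ^ (d - 1) := by
  have hlow : (1 - 1 / (2 : ℝ) ^ Nat.log 2 d) * 2 ^ (d - 1) ≤ (alphaOd (cube d) : ℝ) := by
    set m := Nat.log 2 d with hm
    have hmd : 2 ^ m ≤ d := Nat.pow_log_le_self 2 (by omega)
    have hdm : d < 2 ^ (m + 1) := Nat.lt_pow_succ_log_self (by norm_num) d
    have hm1 : 1 ≤ m := by
      by_contra h
      have h0 : m = 0 := by omega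
      rw [h0] at hdm
      simp at hdm
      omega
    have h1 := lower (d := d) m hm1 hmd hd
    have hml : m + 1 ≤ d := by
      have : m < 2 ^ m := Nat.lt_two_pow_self
      omega
    have h3 : (((2 ^ m - 1) * 2 ^ (d - 1 - m) : ℕ) : ℝ) ≤ (alphaOd (cube d) : ℝ) := by
      exact_mod_cast h1
    rw [Nat.cast_mul, Nat.cast_sub Nat.one_le_two_pow] at h3
    push_cast at h3
    refine le_trans (le_of_eq ?_) h3
    have h5 : (2 : ℝ) ^ (d - 1) = 2 ^ m * 2 ^ (d - 1 - m) := by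
      rw [← pow_add]
      congr 1
      omega
    rw [h5]
    field_simp
  have hup : (alphaOd (cube d) : ℝ) ≤ (1 - 1 / (d : ℝ)) * 2 ^ (d - 1) := by
    have hne : {k | ∃ S : Finset (Fin d → ZMod 2), IsOddIndep (cube d) S ∧ S.card = k}.Nonempty :=
      ⟨0, ∅, ⟨by simp, fun v _ => Or.inl (by simp)⟩, rfl⟩
    obtain ⟨S, hS, hSc⟩ := Nat.sSup_mem hne (alphaOd_bddAbove (cube d))
    have h1 := upper hd h4 S hS
    have h2 : alphaOd (cube d) = S.card := hSc.symm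
    rw [← h2] at h1
    have h3 : (d : ℝ) * (alphaOd (cube d) : ℝ) + 2 ^ (d - 1) ≤ d * 2 ^ (d - 1) := by
      exact_mod_cast h1
    have hd0 : (0 : ℝ) < d := by
      have : 0 < d := by omega
      exact_mod_cast this
    have h5 : (1 - 1 / (d : ℝ)) * 2 ^ (d - 1) = (d * 2 ^ (d - 1) - 2 ^ (d - 1)) / d := by
      field_simp
    rw [h5, le_div_iff₀ hd0]
    linarith
  refine ⟨hlow, hup, ?_⟩
  intro r hr
  refine le_antisymm hup ?_
  refine le_trans (le_of_eq ?_) hlow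
  have h6 : Nat.log 2 d = r := by
    rw [hr]
    exact Nat.log_pow (by norm_num) r
  rw [h6]
  have h7 : (d : ℝ) = 2 ^ r := by
    rw [hr]
    push_cast
    rfl
  rw [h7]

end Pool.Agent.Results.MP_5d7181_co.OddIndepBounds
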