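import Mathlib
import Pool.Agent.R47.OddCube

/-!
# The odd independence ratio of even-dimensional hypercubes tends to 1/2
-/

set_option autoImplicit false

open Filter Topology Pool.Agent.R47.OddCube

namespace Pool.Agent.Results.MP_5d7181_co.OddIndepLimit

theorem upper_half {d : ℕ} (hd : Even d) (h4 : 4 ≤ d) :
    d * alphaOd (cube d) + 2 ^ (d - 1) ≤ d * 2 ^ (d - 1) := by
  have hne : {k | ∃ S : Finset (Fin d → ZMod 2), IsOddIndep (cube d) S ∧ S.card = k}.Nonempty :=
    ⟨0, ∅, ⟨by simp, fun v _ => Or.inl (by simp)⟩, rfl⟩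
  obtain ⟨S, hS, hSc⟩ := Nat.sSup_mem hne (alphaOd_bddAbove (cube d))
  have h1 := upper hd h4 S hS
  have h2 : alphaOd (cube d) = S.card := hSc.symm
  rw [h2]
  exact h1

/-- As `d` tends to infinity through the even numbers, `α_od(Q_d) / 2^d` tends to `1/2`. -/
theorem result : Tendsto (fun k : ℕ => (alphaOd (cube (2 * k)) : ℝ) / 2 ^ (2 * k)) atTop
    (𝓝 (1 / 2)) := by
  have hlow : Tendsto (fun k : ℕ => (1 / 2 : ℝ) - (1 / 2) * (1 / (k : ℝ))) atTop (𝓝 (1 / 2)) := by
    have h1 : Tendsto (fun k : ℕ => (1 / (k : ℝ))) atTop (𝓝 0) :=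
      tendsto_one_div_atTop_nhds_zero_nat
    have h2 := (tendsto_const_nhds (x := (1 / 2 : ℝ))).sub (h1.const_mul (1 / 2 : ℝ))
    simpa using h2
  refine tendsto_of_tendsto_of_tendsto_of_le_of_le' hlow tendsto_const_nhds ?_ ?_
  · filter_upwards [eventually_ge_atTop 2] with k hk
    set d := 2 * k with hd
    set m := Nat.log 2 d with hm
    have hmd : 2 ^ m ≤ d := Nat.pow_log_le_self 2 (by omega)
    have hdm : d < 2 ^ (m + 1) := Nat.lt_pow_succ_log_self (by norm_num) d
    have hm1 : 1 ≤ m := by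
      by_contra h
      have h0 : m = 0 := by omega
      rw [h0] at hdm
      simp at hdm
      omega
    have h1 := lower (d := d) m hm1 hmd ⟨k, by omega⟩
    have hml : m + 1 ≤ d := by
      have : m < 2 ^ m := Nat.lt_two_pow_self
      omega
    have h2 : ((2 ^ m - 1 : ℝ)) * 2 ^ (d - 1 - m) ≤ (alphaOd (cube d) : ℝ) := by
      have h3 : (((2 ^ m - 1) * 2 ^ (d - 1 - m) : ℕ) : ℝ) ≤ (alphaOd (cube d) : ℝ) := by
        exact_mod_cast h1
      rw [Nat.cast_mul, Nat.cast_sub Nat.one_le_two_pow] at h3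
      push_cast at h3
      exact h3
    rw [le_div_iff₀ (by positivity)]
    refine le_trans ?_ h2
    have h5 : (2 : ℝ) ^ d = 2 * 2 ^ m * 2 ^ (d - 1 - m) := by
      rw [← pow_succ', ← pow_add]
      congr 1
      omega
    rw [h5]
    have h6 : (k : ℝ) < 2 ^ m := by
      have : k < 2 ^ m := by
        rw [pow_succ] at hdm
        omega
      exact_mod_cast this
    have hk0 : (0 : ℝ) < k := by
      have : 0 < k := by omega
      exact_mod_cast this
    have h7 : (1 : ℝ) ≤ 1 / (k : ℝ) * 2 ^ m := by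
      rw [one_div, inv_mul_eq_div, le_div_iff₀ hk0]
      linarith
    have h8 : (0 : ℝ) < 2 ^ (d - 1 - m) := by positivity
    nlinarith
  · filter_upwards [eventually_ge_atTop 2] with k hk
    have h1 := upper_half (d := 2 * k) ⟨k, by omega⟩ (by omega)
    rw [div_le_iff₀ (by positivity)]
    have h2 : alphaOd (cube (2 * k)) ≤ 2 ^ (2 * k - 1) := by
      have h3 : (2 * k) * alphaOd (cube (2 * k)) ≤ (2 * k) * 2 ^ (2 * k - 1) :=
        le_trans (Nat.le_add_right _ _) h1
      exact Nat.le_of_mul_le_mul_left h3 (by omega)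
    have h3 : (2 : ℝ) ^ (2 * k) = 2 * 2 ^ (2 * k - 1) := by
      rw [← pow_succ']
      congr 1
      omega
    rw [h3]
    have h4 : (alphaOd (cube (2 * k)) : ℝ) ≤ 2 ^ (2 * k - 1) := by exact_mod_cast h2
    linarith

end Pool.Agent.Results.MP_5d7181_co.OddIndepLimit
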